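import Pool.Agent.U280.OL.Stm

/-!
# Project OL, package Q5: the energy in the direction of x
-/

set_option autoImplicit false

open MeasureTheory FourierTransform Set Filter Topology
open scoped ENNReal

namespace Pool.Agent.U280.OL

open Pool.Agent.U280.OD Pool.Agent.U280.OE

theorem t_Q5 : Q2 → T_F1 → S_F2 → Q5 := by
  intro q2 hF1 hF2 k m N F hF hs ε hε
  have hsm : ∀ n, StronglyMeasurable (fun p : P k m × ℝ => cop ε p.2 (sl (F n) p.1.2) p.1.1) :=
    fun n => (q2 k m (F n) (hF n).continuous (hs n) ε hε).1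
  -- measurability in ((x,τ),y)
  have m1 : ∀ n, Measurable (fun q : (E k × ℝ) × (Fin m → ℝ) =>
      ‖cop ε q.1.2 (sl (F n) q.2) q.1.1‖ₑ ^ 2) := by
    intro n
    have h := (hsm n).measurable
    have h2 : Measurable (fun q : (E k × ℝ) × (Fin m → ℝ) => (((q.1.1, q.2) : P k m), q.1.2)) :=
      ((measurable_fst.comp measurable_fst).prodMk measurable_snd).prodMk
        (measurable_snd.comp measurable_fst)
    exact ((h.comp h2).enorm).pow_const 2
  have m1' : ∀ n, Measurable (fun q : (E k × (Fin m → ℝ)) × ℝ =>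
      ‖cop ε q.2 (sl (F n) q.1.2) q.1.1‖ₑ ^ 2) := fun n => (hsm n).measurable.enorm.pow_const 2
  have m2 : ∀ n, Measurable (fun q : E k × ℝ => ∫⁻ y, ‖cop ε q.2 (sl (F n) y) q.1‖ₑ ^ 2) :=
    fun n => Measurable.lintegral_prod_right' (m1 n)
  obtain ⟨H, hH⟩ : ∃ H : Fin N → E k × ℝ → ℝ≥0∞, H = fun n q => ∫⁻ y,
    ‖cop ε q.2 (sl (F n) y) q.1‖ₑ ^ 2 := ⟨_, rfl⟩
  have m2H : ∀ n, Measurable (H n) := by rw [hH]; exact m2
  have hHe : ∀ n x τ, ∫⁻ y, ‖cop ε τ (sl (F n) y) x‖ₑ ^ 2 = H n (x, τ) := by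
    intro n x τ; rw [hH]
  have m3 : Measurable (fun q : E k × ℝ => ∑ n, H n q) :=
    Finset.measurable_fun_sum _ fun n _ => m2H n
  have e0 : tx ε F = fun x => ∫⁻ τ in Ioi (0 : ℝ), ∑ n, H n (x, τ) := by
    funext x
    unfold tx
    simp_rw [hHe]
  have m4 : Measurable (tx ε F) := by
    rw [e0]
    exact Measurable.lintegral_prod_right' m3
  refine ⟨m4, ?_⟩
  have m5 : ∀ n, Measurable (fun x : E k => ∫⁻ τ in Ioi (0 : ℝ), H n (x, τ)) :=
    fun n => Measurable.lintegral_prod_right' (m2H n)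
  have e1 : ∀ x : E k, ∫⁻ τ in Ioi (0 : ℝ), ∑ n, H n (x, τ) =
      ∑ n, ∫⁻ τ in Ioi (0 : ℝ), H n (x, τ) := by
    intro x
    rw [lintegral_finsetSum]
    intro n _
    exact (m2H n).comp (measurable_prodMk_left (x := x))
  rw [e0, lintegral_congr e1, lintegral_finsetSum _ fun n _ => m5 n]
  simp_rw [← hHe]
  refine Finset.sum_le_sum fun n _ => ?_
  have hc : ∀ y, ContDiff ℝ 1 (sl (F n) y) := fun y =>
    (hF n).comp (contDiff_id.prodMk contDiff_const)
  have hcs : ∀ y, HasCompactSupport (sl (F n) y) := by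
    intro y
    refine HasCompactSupport.intro (K := Prod.fst '' tsupport (F n))
      ((hs n).isCompact.image continuous_fst) ?_
    intro x hx
    by_contra h
    exact hx ⟨(x, y), subset_tsupport _ h, rfl⟩
  have m6 : Measurable (fun q : E k × (Fin m → ℝ) => ∫⁻ τ in Ioi (0 : ℝ),
      ‖cop ε τ (sl (F n) q.2) q.1‖ₑ ^ 2) := Measurable.lintegral_prod_right' (m1' n)
  calc ∫⁻ x : E k, ∫⁻ τ in Ioi (0 : ℝ), ∫⁻ y, ‖cop ε τ (sl (F n) y) x‖ₑ ^ 2
      = ∫⁻ x : E k, ∫⁻ y, ∫⁻ τ in Ioi (0 : ℝ), ‖cop ε τ (sl (F n) y) x‖ₑ ^ 2 := by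
        refine lintegral_congr fun x => ?_
        refine lintegral_lintegral_swap ?_
        have h := (m1 n).comp (f := fun p : ℝ × (Fin m → ℝ) => ((x, p.1), p.2))
          ((measurable_const.prodMk measurable_fst).prodMk measurable_snd)
        exact h.aemeasurable
    _ = ∫⁻ y, ∫⁻ x : E k, ∫⁻ τ in Ioi (0 : ℝ), ‖cop ε τ (sl (F n) y) x‖ₑ ^ 2 :=
        lintegral_lintegral_swap m6.aemeasurable
    _ ≤ _ := by
        refine lintegral_mono fun y => ?_
        exact (hF1 k (sl (F n) y) (hc y).continuous (hcs y) ε hε).trans (hF2 k (sl (F n) y) (hc y) (hcs y))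

end Pool.Agent.U280.OL
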