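import Pool.Agent.U280.OL.Stm
import Pool.Agent.U280.OE.Asm
import Pool.Agent.Helper717.LT.P_T_all

/-!
# Project OL: the inequality at a fixed point `x ∈ ℝ^k` for functions in `C_c^1`
-/

set_option autoImplicit false

open MeasureTheory FourierTransform Set Filter Topology
open scoped ENNReal

namespace Pool.Agent.U280.OL

open Pool.Agent.U280.OD Pool.Agent.U280.OE

/-- the constant belonging to the Bessel constant `A` -/
noncomputable def KA (k : ℕ) (A : ℝ) : ℝ :=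
  (2 / ((k : ℝ) + 2)) ^ (4 / (k : ℝ)) * ((k : ℝ) / ((k : ℝ) + 2)) ^ 2 /
      (33 / 80 * (A * (8 * Real.pi) ^ (-(k : ℝ) / 2)) ^ (2 / (k : ℝ)))

theorem KA_pos {k : ℕ} (hk : 1 ≤ k) {A : ℝ} (hA : 0 < A) : 0 < KA k A := by
  have : 0 < (k : ℝ) := by exact_mod_cast hk
  unfold KA
  positivity

/-- the pointwise inequality, abstract form -/
theorem abs_pt2 (hG : S_G) {k : ℕ} (hd : 1 ≤ k) {T : ℝ≥0∞} {a0 A : ℝ} {b0 : ℝ → ℝ}
    (hA : 0 < A) (h0 : 0 ≤ a0) (hle : ∀ s : ℝ, 0 < s → LB s a0 (b0 s) ≤ T)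
    (hB : ∀ s : ℝ, 0 < s → b0 s ≤ A * (8 * Real.pi * s) ^ (-(k : ℝ) / 2)) :
    ENNReal.ofReal (KA k A * a0 ^ (1 + 2 / (k : ℝ))) ≤ T := by
  rcases eq_or_ne T ⊤ with h | h
  · rw [h]; exact le_top
  have h1 : T = ENNReal.ofReal T.toReal := (ENNReal.ofReal_toReal h).symm
  rw [h1]
  refine ENNReal.ofReal_le_ofReal ?_
  refine hG k a0 T.toReal (A * (8 * Real.pi) ^ (-(k : ℝ) / 2)) (33 / 80) hd
    h0 ENNReal.toReal_nonneg (by positivity) (by norm_num) ?_
  intro s hs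
  have h4 : LB s a0 (b0 s) ≤ ENNReal.ofReal T.toReal := by
    rw [← h1]
    exact hle s hs
  have h5 := of_LB hs ENNReal.toReal_nonneg h4
  refine h5.trans ?_
  have h6 : Real.sqrt (b0 s) ≤
      Real.sqrt (A * (8 * Real.pi) ^ (-(k : ℝ) / 2) * s ^ (-(k : ℝ) / 2)) := by
    apply Real.sqrt_le_sqrt
    refine (hB s hs).trans (le_of_eq ?_)
    rw [mul_assoc A, ← Real.mul_rpow (by positivity) hs.le]
  linarith

/-- the real functions `Re F_n (x, ·)`, `Im F_n (x, ·)` -/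
noncomputable def ff {k m N : ℕ} (F : Fin N → P k m → ℂ) (x : E k) :
    Fin (N + N) → (Fin m → ℝ) → ℝ :=
  Fin.append (fun n y => (F n (x, y)).re) (fun n y => (F n (x, y)).im)

theorem slice_y {k m : ℕ} {F : P k m → ℂ} (hF : ContDiff ℝ 1 F) (hs : HasCompactSupport F)
    (x : E k) : ContDiff ℝ 1 (fun y => F (x, y)) ∧ HasCompactSupport (fun y => F (x, y)) := by
  refine ⟨hF.comp (contDiff_const.prodMk contDiff_id), ?_⟩
  refine HasCompactSupport.intro (K := Prod.snd '' tsupport F) (hs.isCompact.image continuous_snd) ?_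
  intro y hy
  by_contra h
  exact hy ⟨(x, y), subset_tsupport _ h, rfl⟩

theorem ff_re {k m N : ℕ} (F : Fin N → P k m → ℂ) (x : E k) (n : Fin N) :
    ff F x (Fin.castAdd N n) = fun y => (F n (x, y)).re := by
  unfold ff
  rw [Fin.append_left]

theorem ff_im {k m N : ℕ} (F : Fin N → P k m → ℂ) (x : E k) (n : Fin N) :
    ff F x (Fin.natAdd N n) = fun y => (F n (x, y)).im := by
  unfold ff
  rw [Fin.append_right]

theorem ff_smooth {k m N : ℕ} (F : Fin N → P k m → ℂ) (hF : ∀ n, ContDiff ℝ 1 (F n))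
    (hs : ∀ n, HasCompactSupport (F n)) (x : E k) (a : Fin (N + N)) :
    ContDiff ℝ 1 (ff F x a) ∧ HasCompactSupport (ff F x a) := by
  refine Fin.addCases (fun n => ?_) (fun n => ?_) a
  · rw [ff_re]
    obtain ⟨h1, h2⟩ := slice_y (hF n) (hs n) x
    exact ⟨Complex.reCLM.contDiff.comp h1, h2.comp_left (g := Complex.re) Complex.zero_re⟩
  · rw [ff_im]
    obtain ⟨h1, h2⟩ := slice_y (hF n) (hs n) x
    exact ⟨Complex.imCLM.contDiff.comp h1, h2.comp_left (g := Complex.im) Complex.zero_im⟩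

theorem ff_sq {k m N : ℕ} (F : Fin N → P k m → ℂ) (x : E k) (y : Fin m → ℝ) :
    ∑ a, ff F x a y ^ 2 = ∑ n, ‖F n (x, y)‖ ^ 2 := by
  rw [Fin.sum_univ_add, ← Finset.sum_add_distrib]
  refine Finset.sum_congr rfl fun n _ => ?_
  rw [ff_re, ff_im, Complex.sq_norm, Complex.normSq_apply]
  ring

theorem pd_re {m : ℕ} {h : (Fin m → ℝ) → ℂ} (hh : ContDiff ℝ 1 h) (j : Fin m) (y : Fin m → ℝ) :
    LTd.pd j (fun y => (h y).re) y = (fderiv ℝ h y (Pi.single j 1)).re := by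
  have h1 : HasFDerivAt (fun y => (h y).re) (Complex.reCLM.comp (fderiv ℝ h y)) y :=
    Complex.reCLM.hasFDerivAt.comp y (hh.differentiable one_ne_zero y).hasFDerivAt
  unfold LTd.pd
  rw [h1.fderiv]
  rfl

theorem pd_im {m : ℕ} {h : (Fin m → ℝ) → ℂ} (hh : ContDiff ℝ 1 h) (j : Fin m) (y : Fin m → ℝ) :
    LTd.pd j (fun y => (h y).im) y = (fderiv ℝ h y (Pi.single j 1)).im := by
  have h1 : HasFDerivAt (fun y => (h y).im) (Complex.imCLM.comp (fderiv ℝ h y)) y :=
    Complex.imCLM.hasFDerivAt.comp y (hh.differentiable one_ne_zero y).hasFDerivAt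
  unfold LTd.pd
  rw [h1.fderiv]
  rfl

theorem ff_grad {k m N : ℕ} (F : Fin N → P k m → ℂ) (hF : ∀ n, ContDiff ℝ 1 (F n))
    (hs : ∀ n, HasCompactSupport (F n)) (x : E k) (y : Fin m → ℝ) :
    ∑ j, ∑ a, LTd.pd j (ff F x a) y ^ 2 = ∑ n, gradY (F n) (x, y) := by
  unfold gradY
  rw [Finset.sum_comm (s := (Finset.univ : Finset (Fin N)))]
  refine Finset.sum_congr rfl fun j _ => ?_
  rw [Fin.sum_univ_add, ← Finset.sum_add_distrib]
  refine Finset.sum_congr rfl fun n _ => ?_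
  have h1 := (slice_y (hF n) (hs n) x).1
  rw [ff_re, ff_im, pd_re h1, pd_im h1, Complex.sq_norm, Complex.normSq_apply]
  ring

/-- the sum of the squares of the averages -/
theorem av_sq {k m N : ℕ} (F : Fin N → P k m → ℂ) (hF : ∀ n, ContDiff ℝ 1 (F n))
    (hs : ∀ n, HasCompactSupport (F n)) (x : E k) (v : (Fin m → ℝ) → ℝ) (hv : Continuous v) :
    ∑ n, ‖av v (F n) x‖ ^ 2 = ∑ a, (∫ y, v y * ff F x a y) ^ 2 := by
  rw [Fin.sum_univ_add, ← Finset.sum_add_distrib]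
  refine Finset.sum_congr rfl fun n _ => ?_
  obtain ⟨h1, h2⟩ := slice_y (hF n) (hs n) x
  have hi : Integrable (fun y => ((v y : ℝ) : ℂ) * F n (x, y)) :=
    ((Complex.continuous_ofReal.comp hv).mul h1.continuous).integrable_of_hasCompactSupport
      h2.mul_left
  have e1 : (av v (F n) x).re = ∫ y, v y * ff F x (Fin.castAdd N n) y := by
    have := Complex.reCLM.integral_comp_comm hi
    unfold av
    rw [ff_re]
    simpa using this.symm
  have e2 : (av v (F n) x).im = ∫ y, v y * ff F x (Fin.natAdd N n) y := by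
    have := Complex.imCLM.integral_comp_comm hi
    unfold av
    rw [ff_im]
    simpa using this.symm
  rw [← e1, ← e2, Complex.sq_norm, Complex.normSq_apply]
  ring

end Pool.Agent.U280.OL
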