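import Pool.Agent.U280.OL.AsmA

/-!
# Project OL: the inequality at a fixed point `x ∈ ℝ^k` for functions in `C_c^1`, second part
-/

set_option autoImplicit false

open MeasureTheory FourierTransform Set Filter Topology
open scoped ENNReal

namespace Pool.Agent.U280.OL

open Pool.Agent.U280.OD Pool.Agent.U280.OE

/-- the local energy in `x` direction, limit `ε → 0` -/
noncomputable def TX {k m N : ℕ} (F : Fin N → P k m → ℂ) (x : E k) : ℝ≥0∞ :=
  liminf (fun j => tx (ee j) F x) atTop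

theorem sum_liminf_le {M : ℕ} (f : Fin M → ℕ → ℝ≥0∞) :
    ∑ i, liminf (f i) atTop ≤ liminf (fun j => ∑ i, f i j) atTop := by
  have h : ∫⁻ i, liminf (fun j => f i j) atTop ∂(Measure.count : Measure (Fin M)) ≤
      liminf (fun j => ∫⁻ i, f i j ∂(Measure.count : Measure (Fin M))) atTop :=
    lintegral_liminf_le (fun j => measurable_of_finite _)
  simpa [lintegral_count, tsum_fintype] using h

theorem compact_sum {m M : ℕ} (f : Fin M → (Fin m → ℝ) → ℝ) (hs : ∀ a, HasCompactSupport (f a))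
    (c : Fin M → ℝ) : HasCompactSupport fun y => ∑ a, c a * f a y := by
  refine HasCompactSupport.intro (K := ⋃ a, tsupport (f a)) (isCompact_iUnion fun a => hs a) ?_
  intro y hy
  have : ∀ a, f a y = 0 := by
    intro a
    by_contra h
    exact hy (mem_iUnion.2 ⟨a, subset_tsupport _ h⟩)
  simp [this]

section

variable {k m N : ℕ} (hk : 1 ≤ k) {F : Fin N → P k m → ℂ} (hF : ∀ n, ContDiff ℝ 1 (F n))
  (hs : ∀ n, HasCompactSupport (F n)) {A : ℝ} (hA : 0 < A)
  (hlow : ∀ v : (Fin m → ℝ) → ℝ, Continuous v → HasCompactSupport v → ∫ y, v y ^ 2 ≤ 1 →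
    ∀ s : ℝ, 0 < s → ∀ x : E k, ∑ n, ‖∫ x' : E k, ((G s (x - x') : ℝ) : ℂ) * av v (F n) x'‖ ^ 2 ≤
      A * (8 * Real.pi * s) ^ (-(k : ℝ) / 2))
  (hA2 : T_A2) (hC : S_C) (hD1 : T_D1) (hD2 : T_D2) (hG : S_G)
  (q1 : Q1) (q4 : Q4) (q6 : Q6)

include hk hF hs hA hlow hA2 hC hD1 hD2 hG q1 q4 q6 in
theorem eig (x : E k) : ∃ (w : Fin (N + N) → (Fin m → ℝ) → ℝ) (l : Fin (N + N) → ℝ),
    (∀ i, ContDiff ℝ 1 (w i)) ∧ (∀ i, HasCompactSupport (w i)) ∧
    (∀ i j, ∫ y, w i y * w j y = if i = j then l i else 0) ∧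
    (∀ y, ∑ i, w i y ^ 2 = ∑ n, ‖F n (x, y)‖ ^ 2) ∧
    (∀ y, ∑ j, ∑ i, LTd.pd j (w i) y ^ 2 = ∑ n, gradY (F n) (x, y)) ∧
    (∀ i, 0 ≤ l i) ∧
    ∑ i, ENNReal.ofReal (KA k A * l i ^ (1 + 2 / (k : ℝ))) ≤ TX F x := by
  have hf := fun a => ff_smooth F hF hs x a
  obtain ⟨O, l, h1, h2, h3, h4, h5⟩ := q6 m (N + N) (ff F x) (fun a => (hf a).1) (fun a => (hf a).2)
  set w : Fin (N + N) → (Fin m → ℝ) → ℝ := fun i y => ∑ a, O i a * ff F x a y with hw
  have h3' : ∀ i j, ∫ y, w i y * w j y = if i = j then l i else 0 := h3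
  have hwd : ∀ i, ContDiff ℝ 1 (w i) := fun i =>
    ContDiff.sum fun a _ => contDiff_const.mul (hf a).1
  have hws : ∀ i, HasCompactSupport (w i) := fun i => compact_sum _ (fun a => (hf a).2) _
  have hwc : ∀ i, Continuous (w i) := fun i => (hwd i).continuous
  have hww : ∀ i j, Integrable fun y => w i y * w j y := fun i j =>
    ((hwc i).mul (hwc j)).integrable_of_hasCompactSupport (hws j).mul_left
  have hl0 : ∀ i, 0 ≤ l i := by
    intro i
    have := h3' i i
    rw [if_pos rfl] at this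
    rw [← this]
    exact integral_nonneg fun y => mul_self_nonneg _
  set v : Fin (N + N) → (Fin m → ℝ) → ℝ := fun i y => (Real.sqrt (l i))⁻¹ * w i y with hv
  have hvc : ∀ i, Continuous (v i) := fun i => continuous_const.mul (hwc i)
  have hvs : ∀ i, HasCompactSupport (v i) := fun i => (hws i).mul_left
  have hvo : ∀ i j, i ≠ j → ∫ y, v i y * v j y = 0 := by
    intro i j hij
    have e : ∀ y, v i y * v j y = ((Real.sqrt (l i))⁻¹ * (Real.sqrt (l j))⁻¹) * (w i y * w j y) :=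
      fun y => by simp only [hv]; ring
    simp_rw [e]
    rw [integral_const_mul, h3' i j, if_neg hij, mul_zero]
  have hsq : ∀ i, (Real.sqrt (l i))⁻¹ ^ 2 * l i ≤ 1 := by
    intro i
    rw [inv_pow, Real.sq_sqrt (hl0 i)]
    exact inv_mul_le_one
  have hsq2 : ∀ i, (Real.sqrt (l i))⁻¹ ^ 2 * l i ^ 2 = l i := by
    intro i
    rw [inv_pow, Real.sq_sqrt (hl0 i)]
    rcases eq_or_ne (l i) 0 with h | h
    · rw [h]; simp
    · field_simp
  have hvn : ∀ i, ∫ y, v i y ^ 2 ≤ 1 := by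
    intro i
    have e : ∀ y, v i y ^ 2 = (Real.sqrt (l i))⁻¹ ^ 2 * (w i y * w i y) :=
      fun y => by simp only [hv]; ring
    simp_rw [e]
    rw [integral_const_mul, h3' i i, if_pos rfl]
    exact hsq i
  have hfa : ∀ a y, ff F x a y = ∑ j, O j a * w j y := by
    intro a y
    simp only [hw, Finset.mul_sum]
    rw [Finset.sum_comm]
    have : ∀ b, ∑ j, O j a * (O j b * ff F x b y) = (if a = b then 1 else 0) * ff F x b y := by
      intro b
      rw [← h1 a b, Finset.sum_mul]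
      exact Finset.sum_congr rfl fun j _ => by ring
    simp_rw [this]
    simp
  have hwf : ∀ i a, ∫ y, w i y * ff F x a y = O i a * l i := by
    intro i a
    have e : ∀ y, w i y * ff F x a y = ∑ j, O j a * (w i y * w j y) := by
      intro y
      rw [hfa a y, Finset.mul_sum]
      exact Finset.sum_congr rfl fun j _ => by ring
    simp_rw [e]
    rw [integral_finsetSum _ fun j _ => (hww i j).const_mul _]
    simp_rw [integral_const_mul, h3']
    simp
  have hval : ∀ i, ∑ n, ‖av (v i) (F n) x‖ ^ 2 = l i := by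
    intro i
    rw [av_sq F hF hs x (v i) (hvc i)]
    have e : ∀ a, ∫ y, v i y * ff F x a y = (Real.sqrt (l i))⁻¹ * (O i a * l i) := by
      intro a
      have e1 : ∀ y, v i y * ff F x a y = (Real.sqrt (l i))⁻¹ * (w i y * ff F x a y) :=
        fun y => by simp only [hv]; ring
      simp_rw [e1]
      rw [integral_const_mul, hwf]
    simp_rw [e]
    have e2 : ∀ a, ((Real.sqrt (l i))⁻¹ * (O i a * l i)) ^ 2 =
        ((Real.sqrt (l i))⁻¹ ^ 2 * l i ^ 2) * (O i a * O i a) := fun a => by ring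
    simp_rw [e2]
    rw [← Finset.mul_sum, h2 i i, if_pos rfl, mul_one, hsq2]
  refine ⟨w, l, hwd, hws, h3', ?_, ?_, hl0, ?_⟩
  · intro y
    rw [← ff_sq F x y]
    exact h4 y
  · intro y
    rw [← ff_grad F hF hs x y]
    exact Finset.sum_congr rfl fun j _ => h5 y j
  · have hq : ∀ i n, Continuous (av (v i) (F n)) ∧ HasCompactSupport (av (v i) (F n)) :=
      fun i n => ⟨(q1 k m (F n) (hF n).continuous (hs n) (v i) (hvc i) (hvs i)).1,
        (q1 k m (F n) (hF n).continuous (hs n) (v i) (hvc i) (hvs i)).2.1⟩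
    have hi : ∀ i, ENNReal.ofReal (KA k A * l i ^ (1 + 2 / (k : ℝ))) ≤
        TT (fun n => av (v i) (F n)) x := by
      intro i
      refine abs_pt2 hG hk (b0 := fun s => ∑ n, ‖∫ x' : E k, ((G s (x - x') : ℝ) : ℂ) *
        av (v i) (F n) x'‖ ^ 2) hA (hl0 i) ?_ ?_
      · intro s h0
        have := stage1 hA2 hC hD1 hD2 (fun n => av (v i) (F n)) (fun n => (hq i n).1)
          (fun n => (hq i n).2) h0 x
        rwa [hval i] at this
      · intro s h0
        exact hlow (v i) (hvc i) (hvs i) (hvn i) s h0 x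
    calc ∑ i, ENNReal.ofReal (KA k A * l i ^ (1 + 2 / (k : ℝ)))
        ≤ ∑ i, TT (fun n => av (v i) (F n)) x := Finset.sum_le_sum fun i _ => hi i
      _ ≤ liminf (fun j => ∑ i, ∫⁻ τ in Ioi (0 : ℝ),
            ∑ n, ‖cop (ee j) τ (av (v i) (F n)) x‖ₑ ^ 2) atTop := by
          unfold TT
          exact sum_liminf_le fun i j => ∫⁻ τ in Ioi (0 : ℝ),
            ∑ n, ‖cop (ee j) τ (av (v i) (F n)) x‖ₑ ^ 2
      _ ≤ TX F x := by
          unfold TX
          refine liminf_le_liminf (Eventually.of_forall fun j => ?_)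
          exact q4 k m N (N + N) F (fun n => (hF n).continuous) hs v hvc hvs hvo hvn (ee j)
            (ee_pos j) x

end

end Pool.Agent.U280.OL
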