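import Pool.Agent.U280.OL.AsmB

/-!
# Project OL: integration over `x` for functions in `C_c^1`
-/

set_option autoImplicit false

open MeasureTheory FourierTransform Set Filter Topology
open scoped ENNReal

namespace Pool.Agent.U280.OL

open Pool.Agent.U280.OD Pool.Agent.U280.OE

theorem pp1 {k : ℕ} (hk : 1 ≤ k) : LTd.pp (1 + (k : ℝ) / 2) = 1 + 2 / (k : ℝ) := by
  have : (0 : ℝ) < k := by exact_mod_cast hk
  unfold LTd.pp
  rw [add_sub_cancel_left]
  field_simp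
  ring

theorem pp2 {k : ℕ} (hk : 1 ≤ k) (m : ℕ) :
    LTd.pp (1 + (k : ℝ) / 2 + (m : ℝ) / 2) = 1 + 2 / ((k : ℝ) + m) := by
  have : (0 : ℝ) < k := by exact_mod_cast hk
  have h2 : (0 : ℝ) ≤ m := Nat.cast_nonneg m
  unfold LTd.pp
  have h3 : 1 + (k : ℝ) / 2 + (m : ℝ) / 2 - 1 = ((k : ℝ) + m) / 2 := by ring
  rw [h3]
  have h4 : ((k : ℝ) + m) ≠ 0 := by positivity
  field_simp
  ring

/-- the constant of the lifting -/
noncomputable def BB (k m : ℕ) (A : ℝ) : ℝ :=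
  LTd.bco ((m : ℝ) / 2) (1 + (k : ℝ) / 2) (KA k A)

section

variable {k m N : ℕ} (hk : 1 ≤ k) {F : Fin N → P k m → ℂ} (hF : ∀ n, ContDiff ℝ 1 (F n))
  (hs : ∀ n, HasCompactSupport (F n)) {A : ℝ} (hA : 0 < A)
  (hlow : ∀ v : (Fin m → ℝ) → ℝ, Continuous v → HasCompactSupport v → ∫ y, v y ^ 2 ≤ 1 →
    ∀ s : ℝ, 0 < s → ∀ x : E k, ∑ n, ‖∫ x' : E k, ((G s (x - x') : ℝ) : ℂ) * av v (F n) x'‖ ^ 2 ≤
      A * (8 * Real.pi * s) ^ (-(k : ℝ) / 2))
  (hA2 : T_A2) (hC : S_C) (hD1 : T_D1) (hD2 : T_D2) (hG : S_G)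
  (q1 : Q1) (q4 : Q4) (q6 : Q6)

include hF in
theorem cont_gradY (n : Fin N) : Continuous (gradY (F n)) := by
  have h1 : ∀ z : P k m, ∀ j : Fin m, fderiv ℝ (fun y => F n (z.1, y)) z.2 (Pi.single j 1) =
      fderiv ℝ (F n) z ((0 : E k), Pi.single j (1 : ℝ)) := by
    intro z j
    have h2 : HasFDerivAt (fun y : Fin m → ℝ => ((z.1, y) : P k m))
        (ContinuousLinearMap.inr ℝ (E k) (Fin m → ℝ)) z.2 := hasFDerivAt_prodMk_right z.1 z.2
    have h3 : HasFDerivAt (F n) (fderiv ℝ (F n) z) ((z.1, z.2) : P k m) :=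
      ((hF n).differentiable one_ne_zero z).hasFDerivAt
    have h4 := h3.comp z.2 h2
    have h5 : fderiv ℝ (fun y => F n (z.1, y)) z.2 =
        (fderiv ℝ (F n) z).comp (ContinuousLinearMap.inr ℝ (E k) (Fin m → ℝ)) := h4.fderiv
    rw [h5]
    rfl
  unfold gradY
  simp_rw [h1]
  refine continuous_finsetSum _ fun j _ => ?_
  exact ((((hF n).continuous_fderiv one_ne_zero).clm_apply continuous_const).norm).pow 2

include hk hF hs hA hlow hA2 hC hD1 hD2 hG q1 q4 q6 in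
theorem slice (x : E k) :
    ∫⁻ y, ENNReal.ofReal (BB k m A * (∑ n, ‖F n (x, y)‖ ^ 2) ^ (1 + 2 / ((k : ℝ) + m))) ≤
      (∑ n, ∫⁻ y, ENNReal.ofReal (gradY (F n) (x, y))) + TX F x := by
  obtain ⟨w, l, hwd, hws, hwo, h4, h5, hl0, h6⟩ :=
    eig hk hF hs hA hlow hA2 hC hD1 hD2 hG q1 q4 q6 x
  have hkr : (0 : ℝ) < k := by exact_mod_cast hk
  have hkr1 : (1 : ℝ) ≤ k := by exact_mod_cast hk
  have hKA := KA_pos hk hA
  have hB : 0 < BB k m A := LTd.bco_pos (by positivity) (by linarith) hKA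
  have hTm := LTd.T_all m (1 + (k : ℝ) / 2) (by linarith) (KA k A) hKA (N + N) w l hwd hws hwo
  rw [pp1 hk, pp2 hk m] at hTm
  simp_rw [h4, h5] at hTm
  have hp : (0 : ℝ) < 1 + 2 / ((k : ℝ) + m) := by positivity
  have hFc : ∀ n, Continuous fun y => F n (x, y) := fun n => (slice_y (hF n) (hs n) x).1.continuous
  have hFs : ∀ n, HasCompactSupport fun y => F n (x, y) := fun n => (slice_y (hF n) (hs n) x).2
  have hqc : Continuous (fun y => (∑ n, ‖F n (x, y)‖ ^ 2) ^ (1 + 2 / ((k : ℝ) + m))) := by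
    refine Continuous.rpow_const ?_ fun x => Or.inr hp.le
    exact continuous_finsetSum _ fun n _ => (hFc n).norm.pow 2
  have hqs : HasCompactSupport
      (fun y => (∑ n, ‖F n (x, y)‖ ^ 2) ^ (1 + 2 / ((k : ℝ) + m))) := by
    refine HasCompactSupport.intro (K := ⋃ n, tsupport fun y => F n (x, y))
      (isCompact_iUnion fun n => hFs n) ?_
    intro y hy
    have : ∀ n, F n (x, y) = 0 := by
      intro n
      by_contra h
      exact hy (mem_iUnion.2 ⟨n, subset_tsupport (fun y => F n (x, y)) h⟩)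
    simp [this, Real.zero_rpow hp.ne']
  have hqi : Integrable (fun y => BB k m A *
      (∑ n, ‖F n (x, y)‖ ^ 2) ^ (1 + 2 / ((k : ℝ) + m))) :=
    (hqc.integrable_of_hasCompactSupport hqs).const_mul _
  have hgc : ∀ n, Continuous fun y => gradY (F n) (x, y) := fun n =>
    (cont_gradY hF n).comp (Continuous.prodMk_right x)
  have hgs : ∀ n, HasCompactSupport fun y => gradY (F n) (x, y) := by
    intro n
    refine HasCompactSupport.mono' ((hFs n).fderiv ℝ) ?_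
    intro y hy
    refine subset_tsupport _ ?_
    rw [Function.mem_support]
    intro h
    apply hy
    show gradY (F n) (x, y) = 0
    unfold gradY
    rw [h]
    simp
  have hgi : ∀ n, Integrable fun y => gradY (F n) (x, y) := fun n =>
    (hgc n).integrable_of_hasCompactSupport (hgs n)
  have hg0 : ∀ n y, 0 ≤ gradY (F n) (x, y) := fun n y => Finset.sum_nonneg fun _ _ => sq_nonneg _
  calc ∫⁻ y, ENNReal.ofReal (BB k m A * (∑ n, ‖F n (x, y)‖ ^ 2) ^ (1 + 2 / ((k : ℝ) + m)))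
      = ENNReal.ofReal (BB k m A * ∫ y, (∑ n, ‖F n (x, y)‖ ^ 2) ^ (1 + 2 / ((k : ℝ) + m))) := by
        rw [← integral_const_mul, ofReal_integral_eq_lintegral_ofReal hqi
          (ae_of_all _ fun y => by positivity)]
    _ ≤ ENNReal.ofReal ((∫ y, ∑ n, gradY (F n) (x, y)) +
          KA k A * ∑ i, l i ^ (1 + 2 / (k : ℝ))) := ENNReal.ofReal_le_ofReal hTm
    _ ≤ ENNReal.ofReal (∫ y, ∑ n, gradY (F n) (x, y)) +
          ENNReal.ofReal (KA k A * ∑ i, l i ^ (1 + 2 / (k : ℝ))) := ENNReal.ofReal_add_le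
    _ ≤ _ := by
        refine add_le_add (le_of_eq ?_) ?_
        · rw [integral_finsetSum _ fun n _ => hgi n,
            ENNReal.ofReal_sum_of_nonneg fun n _ => integral_nonneg (hg0 n)]
          refine Finset.sum_congr rfl fun n _ => ?_
          rw [ofReal_integral_eq_lintegral_ofReal (hgi n) (ae_of_all _ (hg0 n))]
        · refine le_trans (le_of_eq ?_) h6
          rw [Finset.mul_sum, ENNReal.ofReal_sum_of_nonneg fun i _ =>
            mul_nonneg hKA.le (Real.rpow_nonneg (hl0 i) _)]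

include hk hF hs hA hlow hA2 hC hD1 hD2 hG q1 q4 q6 in
theorem integrated (q5 : Q5) :
    ∫⁻ x, ∫⁻ y, ENNReal.ofReal (BB k m A *
        (∑ n, ‖F n (x, y)‖ ^ 2) ^ (1 + 2 / ((k : ℝ) + m))) ≤
      (∑ n, ∫⁻ y, ∫⁻ x, ENNReal.ofReal (grad2 (sl (F n) y) x)) +
        (∑ n, ∫⁻ x, ∫⁻ y, ENNReal.ofReal (gradY (F n) (x, y))) := by
  have hm : Measurable (TX F) := Measurable.liminf fun j => (q5 k m N F hF hs (ee j) (ee_pos j)).1
  have h1 : ∫⁻ x, TX F x ≤ ∑ n, ∫⁻ y, ∫⁻ x, ENNReal.ofReal (grad2 (sl (F n) y) x) := by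
    unfold TX
    refine (lintegral_liminf_le fun j => (q5 k m N F hF hs (ee j) (ee_pos j)).1).trans ?_
    refine liminf_le_of_le (by isBoundedDefault) ?_
    intro b hb
    obtain ⟨j, hj⟩ := hb.exists
    exact hj.trans (q5 k m N F hF hs (ee j) (ee_pos j)).2
  have hmg : ∀ n, Measurable fun x => ∫⁻ y, ENNReal.ofReal (gradY (F n) (x, y)) := fun n =>
    (cont_gradY hF n).measurable.ennreal_ofReal.lintegral_prod_right'
  calc _ ≤ ∫⁻ x, ((∑ n, ∫⁻ y, ENNReal.ofReal (gradY (F n) (x, y))) + TX F x) :=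
        lintegral_mono fun x => slice hk hF hs hA hlow hA2 hC hD1 hD2 hG q1 q4 q6 x
    _ = (∑ n, ∫⁻ x, ∫⁻ y, ENNReal.ofReal (gradY (F n) (x, y))) + ∫⁻ x, TX F x := by
        rw [lintegral_add_right _ hm, lintegral_finsetSum _ fun n _ => hmg n]
    _ ≤ _ := by
        rw [add_comm]
        gcongr

end

end Pool.Agent.U280.OL
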