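import Pool.Agent.U280.OL.AsmC

/-!
# Project OL: the inequality for `H¹` systems
-/

set_option autoImplicit false

open MeasureTheory FourierTransform Set Filter Topology
open scoped ENNReal

namespace Pool.Agent.U280.OL

open Pool.Agent.U280.OD Pool.Agent.U280.OE

theorem KA_lim {k : ℕ} {A : ℕ → ℝ} {A0 : ℝ} (hA0 : 0 < A0)
    (h : Tendsto A atTop (𝓝 A0)) : Tendsto (fun κ => KA k (A κ)) atTop (𝓝 (KA k A0)) := by
  unfold KA
  have h1 : Tendsto (fun κ => A κ * (8 * Real.pi) ^ (-(k : ℝ) / 2)) atTop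
      (𝓝 (A0 * (8 * Real.pi) ^ (-(k : ℝ) / 2))) := h.mul_const _
  have h2 : 0 < A0 * (8 * Real.pi) ^ (-(k : ℝ) / 2) := by positivity
  have h3 := (h1.rpow_const (p := 2 / (k : ℝ)) (Or.inl h2.ne')).const_mul (33 / 80 : ℝ)
  refine Tendsto.div tendsto_const_nhds h3 ?_
  positivity

theorem BB_lim {k m : ℕ} (hk : 1 ≤ k) {A : ℕ → ℝ} {A0 : ℝ} (hA0 : 0 < A0)
    (h : Tendsto A atTop (𝓝 A0)) : Tendsto (fun κ => BB k m (A κ)) atTop (𝓝 (BB k m A0)) := by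
  have h1 := KA_lim (k := k) hA0 h
  have h2 := KA_pos hk hA0
  have hk0 : (0 : ℝ) < k := by exact_mod_cast hk
  unfold BB LTd.bco
  have h3 := (h1.rpow_const (p := 1 + (k : ℝ) / 2 - 1) (Or.inl h2.ne')).const_mul
    (LTd.JJ ((m : ℝ) / 2) (1 + (k : ℝ) / 2))
  refine h3.rpow_const (Or.inr ?_)
  have : 1 + (k : ℝ) / 2 + (m : ℝ) / 2 - 1 = ((k : ℝ) + m) / 2 := by ring
  rw [this]
  positivity

/-- the hypothesis on the system -/
def FBal (k m : ℕ) {N : ℕ} (u : Fin N → (Fin (k + m) → ℝ) → ℂ) : Prop :=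
  ∀ (c : Fin N → ℂ) (B : Set (Fin m → ℝ)), MeasurableSet B →
    ∫ z in {z : Fin (k + m) → ℝ | (fun j => z (Fin.natAdd k j)) ∈ B},
      ((‖∑ n, c n * u n z‖ : ℝ) : ℂ) * ∑ n, c n * u n z = 0

section

variable {k m N : ℕ} (hk : 1 ≤ k) {u : Fin N → (Fin (k + m) → ℝ) → ℂ}
  {g : Fin N → Fin (k + m) → (Fin (k + m) → ℝ) → ℂ}
  (hu : ∀ n, LTd.WGradC (u n) (g n))
  (ho : ∀ i j, ∫ x, (starRingEnd ℂ) (u i x) * u j x = if i = j then 1 else 0)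
  (hb : FBal k m u)
  (hA2 : T_A2) (hC : S_C) (hD1 : T_D1) (hD2 : T_D2) (hG : S_G)
  (q1 : Q1) (q4 : Q4) (q5 : Q5) (q6 : Q6) (q8 : Q8) (q9 : Q9) (q11 : Q11) (q12 : Q12)

include hk hu ho hb hA2 hC hD1 hD2 hG q1 q4 q5 q6 q8 q9 q11 q12 in
theorem lintegral_le :
    ∫⁻ z, ENNReal.ofReal (BB k m (1 / 2) * (∑ n, ‖u n z‖ ^ 2) ^ (1 + 2 / ((k : ℝ) + m))) ≤
      ENNReal.ofReal (∑ n, ∑ j, ∫ x, ‖g n j x‖ ^ 2) := by
  obtain ⟨J, hJ, hJv⟩ := q11 k m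
  obtain ⟨F, hFd, hFs, hae, hL2, hen⟩ := q12 k m N u g hu
  set U : Fin N → P k m → ℂ := fun n z => u n (Fin.append (WithLp.ofLp z.1) z.2) with hU
  have hUJ : ∀ n z, U n z = u n (J z) := fun n z => by rw [hJv z]
  have hUJ' : ∀ n, U n = fun z => u n (J z) := fun n => funext (hUJ n)
  have hUm : ∀ n, MemLp (U n) 2 := by
    intro n
    rw [hUJ' n]
    exact (hu n).f2.comp_measurePreserving hJ
  have hUo : ∀ i j, ∫ z, (starRingEnd ℂ) (U i z) * U j z = if i = j then 1 else 0 := by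
    intro i j
    rw [hUJ' i, hUJ' j]
    exact (hJ.integral_comp' (fun x => (starRingEnd ℂ) (u i x) * u j x)).trans (ho i j)
  have hUb : FB U := by
    intro c B hB
    have h1 := hJ.setIntegral_preimage_emb J.measurableEmbedding
      (fun z => ((‖∑ n, c n * u n z‖ : ℝ) : ℂ) * ∑ n, c n * u n z)
      {z : Fin (k + m) → ℝ | (fun j => z (Fin.natAdd k j)) ∈ B}
    rw [hb c B hB] at h1
    have h2 : J ⁻¹' {z : Fin (k + m) → ℝ | (fun j => z (Fin.natAdd k j)) ∈ B} =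
        {z : P k m | z.2 ∈ B} := by
      ext z
      simp only [mem_preimage, mem_ofPred_eq, hJv z, Fin.append_right]
    rw [h2] at h1
    simp only [hUJ]
    exact h1
  set δ : ℕ → ℝ := fun κ => Real.sqrt (∑ n, ∫ z : P k m, ‖F κ n z - U n z‖ ^ 2) with hδ
  have hδ0 : ∀ κ, 0 ≤ δ κ := fun κ => Real.sqrt_nonneg _
  have hδ2 : ∀ κ, ∑ n, ∫ z : P k m, ‖F κ n z - U n z‖ ^ 2 ≤ δ κ ^ 2 := by
    intro κ
    rw [hδ]
    simp only
    rw [Real.sq_sqrt (Finset.sum_nonneg fun n _ => integral_nonneg fun z => sq_nonneg _)]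
  have hδl : Tendsto δ atTop (𝓝 0) := by
    have := hL2.sqrt
    rwa [Real.sqrt_zero] at this
  set A : ℕ → ℝ := fun κ => 1 / 2 * (1 + Real.sqrt 2 * δ κ) ^ 2 with hA
  have hA0 : ∀ κ, 0 < A κ := by
    intro κ
    have := hδ0 κ
    rw [hA]
    positivity
  have hAl : Tendsto A atTop (𝓝 (1 / 2)) := by
    have h1 : Tendsto (fun κ => 1 / 2 * (1 + Real.sqrt 2 * δ κ) ^ 2) atTop
        (𝓝 (1 / 2 * (1 + Real.sqrt 2 * 0) ^ 2)) :=
      (((hδl.const_mul (Real.sqrt 2)).const_add 1).pow 2).const_mul (1 / 2)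
    have e : (1 / 2 * (1 + Real.sqrt 2 * 0) ^ 2 : ℝ) = 1 / 2 := by norm_num
    rw [e] at h1
    exact h1
  have hlow : ∀ κ, ∀ v : (Fin m → ℝ) → ℝ, Continuous v → HasCompactSupport v →
      ∫ y, v y ^ 2 ≤ 1 → ∀ s : ℝ, 0 < s → ∀ x : E k,
      ∑ n, ‖∫ x' : E k, ((G s (x - x') : ℝ) : ℂ) * av v (F κ n) x'‖ ^ 2 ≤
      A κ * (8 * Real.pi * s) ^ (-(k : ℝ) / 2) := by
    intro κ v hv hvs hv1 s hs x
    exact q9 k m N U hUm v hv hvs hv1 s hs x (q8 k m N U hUm hUo hUb v hv hvs hv1 s hs x) (F κ)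
      (fun n => (hFd κ n).continuous) (hFs κ) (δ κ) (hδ0 κ) (hδ2 κ)
  have hp : (0 : ℝ) < 1 + 2 / ((k : ℝ) + m) := by positivity
  have hmeas : ∀ κ, Measurable fun z : P k m =>
      ENNReal.ofReal (BB k m (A κ) * (∑ n, ‖F κ n z‖ ^ 2) ^ (1 + 2 / ((k : ℝ) + m))) := by
    intro κ
    have h1 : Continuous (fun z : P k m => (∑ n, ‖F κ n z‖ ^ 2) ^ (1 + 2 / ((k : ℝ) + m))) := by
      refine Continuous.rpow_const ?_ fun x => Or.inr hp.le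
      exact continuous_finsetSum _ fun n _ => (hFd κ n).continuous.norm.pow 2
    exact (h1.measurable.const_mul _).ennreal_ofReal
  have hE : ∀ κ, ∫⁻ z : P k m,
      ENNReal.ofReal (BB k m (A κ) * (∑ n, ‖F κ n z‖ ^ 2) ^ (1 + 2 / ((k : ℝ) + m))) ≤
      ENNReal.ofReal ((∑ n, ∑ j, ∫ x, ‖g n j x‖ ^ 2) + 1 / ((κ : ℝ) + 1)) := by
    intro κ
    have h1 := integrated hk (hFd κ) (hFs κ) (hA0 κ) (hlow κ) hA2 hC hD1 hD2 hG q1 q4 q6 q5
    refine le_trans (le_of_eq ?_) (h1.trans (hen κ))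
    exact lintegral_prod _ (hmeas κ).aemeasurable
  have hlim : Tendsto (fun κ : ℕ => ENNReal.ofReal ((∑ n, ∑ j, ∫ x, ‖g n j x‖ ^ 2) +
      1 / ((κ : ℝ) + 1))) atTop (𝓝 (ENNReal.ofReal (∑ n, ∑ j, ∫ x, ‖g n j x‖ ^ 2))) := by
    refine ENNReal.tendsto_ofReal ?_
    have h := tendsto_one_div_add_atTop_nhds_zero_nat (𝕜 := ℝ)
    simpa using h.const_add (∑ n, ∑ j, ∫ x, ‖g n j x‖ ^ 2)
  have hBl := BB_lim (m := m) hk (by norm_num : (0 : ℝ) < 1 / 2) hAl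
  have hpt : ∀ᵐ z : P k m, ENNReal.ofReal (BB k m (1 / 2) *
      (∑ n, ‖U n z‖ ^ 2) ^ (1 + 2 / ((k : ℝ) + m))) = liminf (fun κ => ENNReal.ofReal
        (BB k m (A κ) * (∑ n, ‖F κ n z‖ ^ 2) ^ (1 + 2 / ((k : ℝ) + m)))) atTop := by
    filter_upwards [hae] with z hz
    refine (Tendsto.liminf_eq ?_).symm
    refine ENNReal.tendsto_ofReal (hBl.mul ?_)
    have h3 : Tendsto (fun κ => ∑ n, ‖F κ n z‖ ^ 2) atTop (𝓝 (∑ n, ‖U n z‖ ^ 2)) :=
      tendsto_finsetSum _ fun n _ => (hz n).norm.pow 2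
    exact h3.rpow_const (Or.inr hp.le)
  have hT : ∫⁻ z, ENNReal.ofReal (BB k m (1 / 2) *
      (∑ n, ‖u n z‖ ^ 2) ^ (1 + 2 / ((k : ℝ) + m))) =
      ∫⁻ z : P k m, ENNReal.ofReal (BB k m (1 / 2) *
      (∑ n, ‖U n z‖ ^ 2) ^ (1 + 2 / ((k : ℝ) + m))) := by
    have h1 := hJ.lintegral_comp_emb J.measurableEmbedding (fun z => ENNReal.ofReal
      (BB k m (1 / 2) * (∑ n, ‖u n z‖ ^ 2) ^ (1 + 2 / ((k : ℝ) + m))))
    simp only [hUJ]
    exact h1.symm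
  rw [hT]
  calc _ = ∫⁻ z : P k m, liminf (fun κ => ENNReal.ofReal
        (BB k m (A κ) * (∑ n, ‖F κ n z‖ ^ 2) ^ (1 + 2 / ((k : ℝ) + m)))) atTop :=
        lintegral_congr_ae hpt
    _ ≤ liminf (fun κ => ∫⁻ z : P k m, ENNReal.ofReal
        (BB k m (A κ) * (∑ n, ‖F κ n z‖ ^ 2) ^ (1 + 2 / ((k : ℝ) + m)))) atTop :=
        lintegral_liminf_le hmeas
    _ ≤ liminf (fun κ : ℕ => ENNReal.ofReal ((∑ n, ∑ j, ∫ x, ‖g n j x‖ ^ 2) +
          1 / ((κ : ℝ) + 1))) atTop := liminf_le_liminf (Eventually.of_forall hE)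
    _ = _ := hlim.liminf_eq

include hk hu ho hb hA2 hC hD1 hD2 hG q1 q4 q5 q6 q8 q9 q11 q12 in
/-- the inequality -/
theorem main (hN : T_N) (q10 : Q10) :
    Integrable (fun z => (∑ n, ‖u n z‖ ^ 2) ^ (1 + 2 / ((k + m : ℕ) : ℝ))) ∧
    (fac2 k ^ k) ^ (1 / ((k + m : ℕ) : ℝ)) * LTd.Kcl (k + m) *
      ∫ z, (∑ n, ‖u n z‖ ^ 2) ^ (1 + 2 / ((k + m : ℕ) : ℝ)) ≤
      ∑ n, ∑ j, ∫ x, ‖g n j x‖ ^ 2 := by
  have hkr : (0 : ℝ) < k := by exact_mod_cast hk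
  have hf : 0 < fac2 k := by
    have h1 : 0 < (volume (Metric.ball (0 : E k) 1)).toReal :=
      ENNReal.toReal_pos (Metric.measure_ball_pos _ _ one_pos).ne' measure_ball_lt_top.ne
    unfold fac2
    positivity
  have hK : 0 < BB k m (1 / 2) := by
    have hkr1 : (1 : ℝ) ≤ k := by exact_mod_cast hk
    exact LTd.bco_pos (by positivity) (by linarith) (KA_pos hk (by norm_num))
  have eK : BB k m (1 / 2) = (fac2 k ^ k) ^ (1 / ((k + m : ℕ) : ℝ)) * LTd.Kcl (k + m) := by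
    unfold BB
    have e1 : KA k (1 / 2) = fac2 k * Kcl k := hN.1 k hk
    rw [e1, q10 k m hk (fac2 k) hf]
    congr 1
    rw [← Real.rpow_natCast, ← Real.rpow_mul hf.le]
    congr 1
    push_cast
    ring
  rw [← eK]
  have h := lintegral_le hk hu ho hb hA2 hC hD1 hD2 hG q1 q4 q5 q6 q8 q9 q11 q12
  have ec : (((k + m : ℕ) : ℝ)) = (k : ℝ) + m := by push_cast; ring
  rw [ec]
  have hq0 : ∀ x, 0 ≤ BB k m (1 / 2) * (∑ n, ‖u n x‖ ^ 2) ^ (1 + 2 / ((k : ℝ) + m)) :=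
    fun x => by positivity
  have hm : AEStronglyMeasurable
      (fun x => (∑ n, ‖u n x‖ ^ 2) ^ (1 + 2 / ((k : ℝ) + m))) volume := by
    have h1 : AEMeasurable (fun x => ∑ n, ‖u n x‖ ^ 2) volume :=
      Finset.aemeasurable_fun_sum _ fun n _ =>
        ((hu n).f2.aestronglyMeasurable.aemeasurable.norm).pow_const 2
    exact (h1.pow_const _).aestronglyMeasurable
  have hi : Integrable (fun x => BB k m (1 / 2) *
      (∑ n, ‖u n x‖ ^ 2) ^ (1 + 2 / ((k : ℝ) + m))) := by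
    refine ⟨hm.const_mul _, ?_⟩
    rw [hasFiniteIntegral_iff_ofReal (ae_of_all _ hq0)]
    exact h.trans_lt ENNReal.ofReal_lt_top
  have hi2 : Integrable (fun x => (∑ n, ‖u n x‖ ^ 2) ^ (1 + 2 / ((k : ℝ) + m))) := by
    have h2 := hi.const_mul (BB k m (1 / 2))⁻¹
    refine h2.congr (ae_of_all _ fun x => ?_)
    simp only
    rw [← mul_assoc, inv_mul_cancel₀ hK.ne', one_mul]
  refine ⟨hi2, ?_⟩
  rw [← ofReal_integral_eq_lintegral_ofReal hi (ae_of_all _ hq0),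
    ENNReal.ofReal_le_ofReal_iff (Finset.sum_nonneg fun n _ => Finset.sum_nonneg fun j _ =>
      integral_nonneg fun x => sq_nonneg _), integral_const_mul] at h
  exact h

end

end Pool.Agent.U280.OL
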