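import Pool.Agent.U280.OE.Stm

/-!
# Project OL: lifting of project OE to all dimensions: statements of the packages

`ℝ^(k+m) = ℝ^k × ℝ^m`; the heat semigroup acts on the first variable `x` only, the sharp
semiclassical inequality of the library `LTd` (`LTd.Tm`) is used in the second variable `y`.
-/

set_option autoImplicit false

open MeasureTheory FourierTransform Set Filter Topology
open scoped ENNReal

namespace Pool.Agent.U280.OL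

open Pool.Agent.U280.OD Pool.Agent.U280.OE

/-- the product space `ℝ^k × ℝ^m` -/
abbrev P (k m : ℕ) : Type := E k × (Fin m → ℝ)

/-- `∫ v(y) F(x,y) dy` -/
noncomputable def av {k m : ℕ} (v : (Fin m → ℝ) → ℝ) (F : P k m → ℂ) (x : E k) : ℂ :=
  ∫ y, ((v y : ℝ) : ℂ) * F (x, y)

/-- the slice `x ↦ F (x, y)` -/
def sl {k m : ℕ} (F : P k m → ℂ) (y : Fin m → ℝ) (x : E k) : ℂ := F (x, y)

/-- the local energy in `x` direction -/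
noncomputable def tx {k m N : ℕ} (ε : ℝ) (F : Fin N → P k m → ℂ) (x : E k) : ℝ≥0∞ :=
  ∫⁻ τ in Ioi (0 : ℝ), ∑ n, ∫⁻ y, ‖cop ε τ (sl (F n) y) x‖ₑ ^ 2

/-- `|∇_y F|²` -/
noncomputable def gradY {k m : ℕ} (F : P k m → ℂ) (z : P k m) : ℝ :=
  ∑ j : Fin m, ‖fderiv ℝ (fun y => F (z.1, y)) z.2 (Pi.single j 1)‖ ^ 2

/-- the system is balanced on `ℝ^k × B` for all `B` -/
def FB {k m N : ℕ} (u : Fin N → P k m → ℂ) : Prop :=
  ∀ (c : Fin N → ℂ) (B : Set (Fin m → ℝ)), MeasurableSet B →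
    ∫ z in {z : P k m | z.2 ∈ B}, ((‖∑ n, c n * u n z‖ : ℝ) : ℂ) * ∑ n, c n * u n z = 0

/-- Package Q1: averages over `y`. -/
def Q1 : Prop :=
  ∀ (k m : ℕ) (F : P k m → ℂ), Continuous F → HasCompactSupport F →
    ∀ v : (Fin m → ℝ) → ℝ, Continuous v → HasCompactSupport v →
    Continuous (av v F) ∧ HasCompactSupport (av v F) ∧
    ∀ ε τ : ℝ, 0 < ε → 0 < τ → ∀ x, cop ε τ (av v F) x =
      ∫ y, ((v y : ℝ) : ℂ) * cop ε τ (sl F y) x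

/-- Package Q2: measurability and continuity. -/
def Q2 : Prop :=
  ∀ (k m : ℕ) (F : P k m → ℂ), Continuous F → HasCompactSupport F → ∀ ε : ℝ, 0 < ε →
    StronglyMeasurable (fun p : P k m × ℝ => cop ε p.2 (sl F p.1.2) p.1.1) ∧
    ∀ τ : ℝ, 0 < τ → ∀ x, Continuous (fun y => cop ε τ (sl F y) x) ∧
      HasCompactSupport (fun y => cop ε τ (sl F y) x)

/-- Package Q3: Bessel's inequality. -/
def Q3 : Prop :=
  ∀ (m M : ℕ) (v : Fin M → (Fin m → ℝ) → ℝ), (∀ i, Continuous (v i)) →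
    (∀ i, HasCompactSupport (v i)) → (∀ i j, i ≠ j → ∫ y, v i y * v j y = 0) →
    (∀ i, ∫ y, v i y ^ 2 ≤ 1) → ∀ h : (Fin m → ℝ) → ℂ, Continuous h → HasCompactSupport h →
    ∑ i, ‖∫ y, ((v i y : ℝ) : ℂ) * h y‖ₑ ^ 2 ≤ ∫⁻ y, ‖h y‖ₑ ^ 2

/-- Package Q4: Bessel's inequality for the local energy. -/
def Q4 : Prop :=
  ∀ (k m N M : ℕ) (F : Fin N → P k m → ℂ), (∀ n, Continuous (F n)) →
    (∀ n, HasCompactSupport (F n)) → ∀ v : Fin M → (Fin m → ℝ) → ℝ, (∀ i, Continuous (v i)) →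
    (∀ i, HasCompactSupport (v i)) → (∀ i j, i ≠ j → ∫ y, v i y * v j y = 0) →
    (∀ i, ∫ y, v i y ^ 2 ≤ 1) → ∀ (ε : ℝ), 0 < ε → ∀ x,
    ∑ i, ∫⁻ τ in Ioi (0 : ℝ), ∑ n, ‖cop ε τ (av (v i) (F n)) x‖ₑ ^ 2 ≤ tx ε F x

/-- Package Q5: the energy in `x` direction. -/
def Q5 : Prop :=
  ∀ (k m N : ℕ) (F : Fin N → P k m → ℂ), (∀ n, ContDiff ℝ 1 (F n)) →
    (∀ n, HasCompactSupport (F n)) → ∀ ε : ℝ, 0 < ε → Measurable (tx ε F) ∧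
    ∫⁻ x, tx ε F x ≤ ∑ n, ∫⁻ y, ∫⁻ x, ENNReal.ofReal (grad2 (sl (F n) y) x)

/-- Package Q6: diagonalization of the Gram matrix. -/
def Q6 : Prop :=
  ∀ (m M : ℕ) (f : Fin M → (Fin m → ℝ) → ℝ), (∀ a, ContDiff ℝ 1 (f a)) →
    (∀ a, HasCompactSupport (f a)) →
    ∃ (O : Fin M → Fin M → ℝ) (l : Fin M → ℝ),
      (∀ a b, ∑ i, O i a * O i b = if a = b then 1 else 0) ∧
      (∀ i j, ∑ a, O i a * O j a = if i = j then 1 else 0) ∧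
      (∀ i j, ∫ y, (∑ a, O i a * f a y) * (∑ a, O j a * f a y) = if i = j then l i else 0) ∧
      (∀ y, ∑ i, (∑ a, O i a * f a y) ^ 2 = ∑ a, f a y ^ 2) ∧
      ∀ y j, ∑ i, LTd.pd j (fun y => ∑ a, O i a * f a y) y ^ 2 = ∑ a, LTd.pd j (f a) y ^ 2

/-- Package Q8: the Bessel inequality with the factor `1/2` on the product. -/
def Q8 : Prop :=
  ∀ (k m N : ℕ) (u : Fin N → P k m → ℂ), (∀ n, MemLp (u n) 2) →
    (∀ i j, ∫ z, (starRingEnd ℂ) (u i z) * u j z = if i = j then 1 else 0) → FB u →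
    ∀ v : (Fin m → ℝ) → ℝ, Continuous v → HasCompactSupport v → ∫ y, v y ^ 2 ≤ 1 →
    ∀ s : ℝ, 0 < s → ∀ x : E k,
    ∑ n, ‖∫ z : P k m, ((G s (x - z.1) * v z.2 : ℝ) : ℂ) * u n z‖ ^ 2 ≤
      1 / 2 * (8 * Real.pi * s) ^ (-(k : ℝ) / 2)

/-- Package Q9: the same for functions close to `u`. -/
def Q9 : Prop :=
  ∀ (k m N : ℕ) (u : Fin N → P k m → ℂ), (∀ n, MemLp (u n) 2) →
    ∀ (v : (Fin m → ℝ) → ℝ), Continuous v → HasCompactSupport v → ∫ y, v y ^ 2 ≤ 1 →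
    ∀ s : ℝ, 0 < s → ∀ x : E k,
    ∑ n, ‖∫ z : P k m, ((G s (x - z.1) * v z.2 : ℝ) : ℂ) * u n z‖ ^ 2 ≤
      1 / 2 * (8 * Real.pi * s) ^ (-(k : ℝ) / 2) →
    ∀ F : Fin N → P k m → ℂ, (∀ n, Continuous (F n)) → (∀ n, HasCompactSupport (F n)) →
    ∀ δ : ℝ, 0 ≤ δ → ∑ n, ∫ z, ‖F n z - u n z‖ ^ 2 ≤ δ ^ 2 →
    ∑ n, ‖∫ x' : E k, ((G s (x - x') : ℝ) : ℂ) * av v (F n) x'‖ ^ 2 ≤
      (1 / 2 * (1 + Real.sqrt 2 * δ) ^ 2) * (8 * Real.pi * s) ^ (-(k : ℝ) / 2)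

/-- Package Q10: the constants of the lifting. -/
def Q10 : Prop :=
  ∀ (k m : ℕ), 1 ≤ k → ∀ c : ℝ, 0 < c →
    LTd.bco ((m : ℝ) / 2) (1 + (k : ℝ) / 2) (c * Kcl k) =
      c ^ ((k : ℝ) / ((k : ℝ) + m)) * LTd.Kcl (k + m)

/-- Package Q11: the coordinates of the product. -/
def Q11 : Prop :=
  ∀ (k m : ℕ), ∃ J : P k m ≃ᵐ (Fin (k + m) → ℝ), MeasurePreserving J ∧
    ∀ z, J z = Fin.append (WithLp.ofLp z.1) z.2

/-- Package Q12: approximation of `H¹` systems on the product. -/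
def Q12 : Prop :=
  ∀ (k m N : ℕ) (u : Fin N → (Fin (k + m) → ℝ) → ℂ)
    (g : Fin N → Fin (k + m) → (Fin (k + m) → ℝ) → ℂ), (∀ n, LTd.WGradC (u n) (g n)) →
    ∃ F : ℕ → Fin N → P k m → ℂ, (∀ κ n, ContDiff ℝ 1 (F κ n)) ∧
      (∀ κ n, HasCompactSupport (F κ n)) ∧
      (∀ᵐ z : P k m, ∀ n, Tendsto (fun κ => F κ n z) atTop
        (𝓝 (u n (Fin.append (WithLp.ofLp z.1) z.2)))) ∧
      Tendsto (fun κ => ∑ n, ∫ z : P k m,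
        ‖F κ n z - u n (Fin.append (WithLp.ofLp z.1) z.2)‖ ^ 2) atTop (𝓝 0) ∧
      ∀ κ : ℕ, (∑ n, ∫⁻ y, ∫⁻ x, ENNReal.ofReal (grad2 (sl (F κ n) y) x)) +
        (∑ n, ∫⁻ x, ∫⁻ y, ENNReal.ofReal (gradY (F κ n) (x, y))) ≤
        ENNReal.ofReal ((∑ n, ∑ j, ∫ x, ‖g n j x‖ ^ 2) + 1 / ((κ : ℝ) + 1))

/-- Package Q13: systems with a symmetry which leaves the last `m` coordinates fixed. -/
def Q13 : Prop :=
  ∀ (k m N : ℕ) (u : Fin N → (Fin (k + m) → ℝ) → ℂ), (∀ n, MemLp (u n) 2) →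
    ∀ (g : (Fin (k + m) → ℝ) → (Fin (k + m) → ℝ)), MeasurePreserving g →
    (∀ z j, g z (Fin.natAdd k j) = z (Fin.natAdd k j)) → ∀ ζ : ℂ, ‖ζ‖ = 1 → ζ ≠ 1 →
    (∀ n, ∀ᵐ x, u n (g x) = ζ * u n x) →
    ∀ (c : Fin N → ℂ) (B : Set (Fin m → ℝ)), MeasurableSet B →
    ∫ z in {z : Fin (k + m) → ℝ | (fun j => z (Fin.natAdd k j)) ∈ B},
      ((‖∑ n, c n * u n z‖ : ℝ) : ℂ) * ∑ n, c n * u n z = 0

end Pool.Agent.U280.OL
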